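import Pool.Agent.K6.helper20.CZ.Expand
import Pool.Agent.N234.CP.Final

set_option autoImplicit false
set_option linter.unusedSectionVars false

/-!
# Growth of the stable sets under a commuting diffeomorphism: from the derivative
-/

open Filter Topology Set Metric
open scoped Manifold ContDiff

namespace Pool.Agent.K6.helper20.CZ

open Pool.Agent.N234.CP Pool.Agent.H721R2 Pool.Agent.H789R2.AN Pool.Agent.H789R2.GP

universe u v w

section metric

variable {E : Type u} [NormedAddCommGroup E] [NormedSpace ℝ E] [FiniteDimensional ℝ E]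
  {M : Type v} [MetricSpace M] [CompactSpace M]
  [ChartedSpace E M] [IsManifold 𝓘(ℝ, E) 1 M]
  {F : Type w} [NormedAddCommGroup F] [NormedSpace ℝ F]

/-- A smooth map whose derivative is bounded by `Λ` on the stable bundle is `2 Λ`-Lipschitz on
small stable pairs. -/
theorem lip_small {e : M → F} (hiso : ∀ x y, dist x y = ‖e x - e y‖)
    (he : ContMDiff 𝓘(ℝ, E) 𝓘(ℝ, F) 1 e) (hinj : ∀ x, Function.Injective (dm E e x))
    (S : HypSys M F) (hSe : S.e = e) {Es : M → Submodule ℝ E}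
    (hVs : ∀ x, S.Vs x = (Es x).map (dm E e x).toLinearMap) {φ : M → M}
    (hφ : ContMDiff 𝓘(ℝ, E) 𝓘(ℝ, E) 1 φ) {Λ : ℝ} (hΛ : 0 < Λ)
    (hb : ∀ x, ∀ v ∈ Es x, ‖dm E e (φ x) (dg E φ x v)‖ ≤ Λ * ‖dm E e x v‖) :
    ∃ r > 0, ∀ x y, S.SRel r x y → dist (φ x) (φ y) ≤ 2 * Λ * dist x y := by
  obtain ⟨B, hB, hBv⟩ := global_bound e he hinj φ hφ
  have hden : 0 < 2 * Λ + 3 * B + 1 := by positivity
  obtain ⟨η, hη⟩ : ∃ η : ℝ, η = Λ / (2 * Λ + 3 * B + 1) := ⟨_, rfl⟩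
  have hη0 : 0 < η := by rw [hη]; positivity
  have hη1 : η * (2 * Λ + 3 * B + 1) = Λ := by rw [hη]; field_simp
  have hη2 : η ≤ 1 := by
    rw [hη, div_le_one hden]
    linarith
  have hP : ∃ r > 0, ∀ x y, dist x y < r → ∃ v : E,
      ‖e y - e x - dm E e x v‖ ≤ η * ‖e y - e x‖ ∧
      ‖e (φ y) - e (φ x) - dm E e (φ x) (dg E φ x v)‖ ≤ η * ‖e y - e x‖ := by
    apply exists_uniform_radius
    intro x₀
    obtain ⟨-, h1⟩ := local_all e he hinj (e ∘ φ) (he.comp hφ) x₀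
    obtain ⟨W, hW, r, hr, h2, -, -⟩ := h1 η hη0
    refine ⟨W, hW, fun x hx y hy => ?_⟩
    obtain ⟨v, h3, h4⟩ := h2 x hx y hy
    rw [dm_comp e he _ hφ] at h4
    exact ⟨v, h3, h4⟩
  obtain ⟨r, hr, hP⟩ := hP
  obtain ⟨ε, hε, cs⟩ := S.coneS' η hη0 hη2
  refine ⟨min (r / 2) ε, lt_min (half_pos hr) hε, fun x y hxy => ?_⟩
  have hd0 : dist x y < r := by
    have h1 : dist x y ≤ r / 2 := (hxy 0).trans (min_le_left _ _)
    linarith
  obtain ⟨v, h1, h2⟩ := hP x y hd0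
  obtain ⟨s, hs, h3⟩ := cs x y (hxy.mono (min_le_right _ _))
  rw [hVs] at hs
  obtain ⟨vs, hvs, rfl⟩ := hs
  rw [hSe] at h3
  have hdist : ‖e y - e x‖ = dist x y := by rw [hiso, norm_sub_rev]
  rw [hdist] at h1 h2
  have h3' : ‖e y - e x - dm E e x vs‖ ≤ 2 * η * dist x y := h3
  set d := dist x y with hd
  have hd1 : 0 ≤ d := dist_nonneg
  have h4 : ‖dm E e x (v - vs)‖ ≤ 3 * η * d := by
    have e1 : dm E e x (v - vs) = (e y - e x - dm E e x vs) - (e y - e x - dm E e x v) := by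
      rw [map_sub]; abel
    rw [e1]
    refine (norm_sub_le _ _).trans ?_
    linarith
  have h5 : ‖dm E e x vs‖ ≤ (1 + 2 * η) * d := by
    have e1 : dm E e x vs = (e y - e x) - (e y - e x - dm E e x vs) := by abel
    have h6 : ‖dm E e x vs‖ ≤ ‖e y - e x‖ + ‖e y - e x - dm E e x vs‖ := by
      conv_lhs => rw [e1]
      exact norm_sub_le _ _
    rw [hdist] at h6
    linarith
  have h6 : ‖dm E e (φ x) (dg E φ x (v - vs))‖ ≤ B * (3 * η * d) :=
    (hBv x (v - vs)).trans (mul_le_mul_of_nonneg_left h4 hB.le)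
  have h7 : ‖dm E e (φ x) (dg E φ x vs)‖ ≤ Λ * ((1 + 2 * η) * d) :=
    (hb x vs hvs).trans (mul_le_mul_of_nonneg_left h5 hΛ.le)
  have h8 : dist (φ x) (φ y) ≤ Λ * ((1 + 2 * η) * d) + B * (3 * η * d) + η * d := by
    have e1 : e (φ y) - e (φ x) = dm E e (φ x) (dg E φ x vs) +
        dm E e (φ x) (dg E φ x (v - vs)) + (e (φ y) - e (φ x) - dm E e (φ x) (dg E φ x v)) := by
      rw [map_sub, map_sub]; abel
    rw [hiso, norm_sub_rev, e1]
    refine (norm_add_le _ _).trans (add_le_add ((norm_add_le _ _).trans (add_le_add h7 h6)) h2)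
  have h9 : Λ * ((1 + 2 * η) * d) + B * (3 * η * d) + η * d =
      Λ * d + η * (2 * Λ + 3 * B + 1) * d := by ring
  rw [h9, hη1] at h8
  linarith

end metric

section manifold

variable {E : Type u} [NormedAddCommGroup E] [NormedSpace ℝ E] [FiniteDimensional ℝ E]
  {M : Type v} [TopologicalSpace M] [T2Space M] [CompactSpace M] [ConnectedSpace M]
  [ChartedSpace E M] [IsManifold 𝓘(ℝ, E) ∞ M]

/-- From the growth of the derivative of a commuting diffeomorphism on the stable bundle to the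
growth of the stable sets in the large. -/
theorem expandsAlong_of_deriv (f : Diffeomorph 𝓘(ℝ, E) 𝓘(ℝ, E) M M 1)
    (Es Eu : ∀ x : M, Submodule ℝ (TangentSpace 𝓘(ℝ, E) x)) (hA : IsAnosov f Es Eu)
    (h : Diffeomorph 𝓘(ℝ, E) 𝓘(ℝ, E) M M 1) (hc : ∀ x, h (f x) = f (h x)) (σ σ' : ℝ)
    (hσ' : 0 < σ') (hlt : σ < σ') (hgr : ContractsAt h Es (-σ)) : ExpandsAlong f h σ' := by
  obtain ⟨m, e, he, hemb, hinj⟩ := exists_embedding_euclidean_of_compact (I := 𝓘(ℝ, E)) (M := M)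
  let _ : MetricSpace M := hemb.isEmbedding.comapMetricSpace e
  have hiso : ∀ x y : M, dist x y = ‖e x - e y‖ := fun x y => dist_eq_norm (e x) (e y)
  have he1 : ContMDiff 𝓘(ℝ, E) (𝓡 m) 1 e := he.of_le (by simp)
  obtain ⟨C, a, b, Ls, Lu, hE⟩ := eanosov_of_isAnosov e he1 hinj f Es Eu hA
  obtain ⟨n₀, S, hn1, hg, hSe, -, -, hVs, -⟩ := exists_sys hiso he1 hinj hE
    (a' := 1) (b' := 1) hE.a_lt hE.b_lt
  obtain ⟨c, hLP⟩ := exists_LP S
  have hc0 := hLP.c_pos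
  obtain ⟨N, C₀, hN, hC₀, hgr⟩ := hgr
  obtain ⟨R, hR, hcmp⟩ := tnm_compare hN e he1 hinj
  have hhs : ContMDiff 𝓘(ℝ, E) 𝓘(ℝ, E) 1 h.toHomeomorph := h.contMDiff
  -- growth in the ambient norm
  have hg1 : ∀ (n : ℕ) (x : M), ∀ v ∈ Es x,
      ‖dm E e (h.toHomeomorph^[n] x) (dg E (h.toHomeomorph^[n]) x v)‖ ≤
        R * R * C₀ * Real.exp (σ * n) * ‖dm E e x v‖ := by
    intro n x v hv
    have h1 : tnm N (h.toHomeomorph^[n] x) (dg E (h.toHomeomorph^[n]) x v) ≤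
        C₀ * Real.exp (- -σ) ^ n * tnm N x v := hgr n x v hv
    have h2 := (hcmp (h.toHomeomorph^[n] x) (dg E (h.toHomeomorph^[n]) x v)).1
    have h3 := (hcmp x v).2
    have h4 : Real.exp (- -σ) ^ n = Real.exp (σ * n) := by
      rw [neg_neg, ← Real.exp_nat_mul, mul_comm]
    rw [h4] at h1
    calc _ ≤ R * tnm N (h.toHomeomorph^[n] x) (dg E (h.toHomeomorph^[n]) x v) := h2
      _ ≤ R * (C₀ * Real.exp (σ * n) * tnm N x v) := mul_le_mul_of_nonneg_left h1 hR.le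
      _ ≤ R * (C₀ * Real.exp (σ * n) * (R * ‖dm E e x v‖)) := by
          apply mul_le_mul_of_nonneg_left _ hR.le
          exact mul_le_mul_of_nonneg_left h3 (by positivity)
      _ = _ := by ring
  -- the choice of the iterate
  set C' := max 1 (R * R * C₀) with hC'
  have hC'1 : 1 ≤ C' := le_max_left _ _
  have hC'2 : R * R * C₀ ≤ C' := le_max_right _ _
  set τ := max σ 0 with hτ
  have hτ0 : 0 ≤ τ := le_max_right _ _
  have hτ1 : σ ≤ τ := le_max_left _ _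
  have hτ2 : 0 < σ' - τ := by
    have : τ < σ' := max_lt hlt hσ'
    linarith
  obtain ⟨p, hp⟩ := exists_nat_ge (Real.log (5 * C') / (σ' - τ))
  have hp' : Real.log (5 * C') ≤ (σ' - τ) * ((p + 1 : ℕ) : ℝ) := by
    rw [div_le_iff₀ hτ2] at hp
    push_cast
    nlinarith
  set Λ := C' * Real.exp (τ * ((p + 1 : ℕ) : ℝ)) with hΛ
  have hexp1 : 1 ≤ Real.exp (τ * ((p + 1 : ℕ) : ℝ)) := by
    rw [Real.one_le_exp_iff]; positivity
  have hΛ1 : 1 ≤ Λ := by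
    rw [hΛ]; nlinarith
  have hΛ0 : 0 < Λ := by linarith
  have hm1 : 4 * Λ + 1 ≤ Real.exp (σ' * ((p + 1 : ℕ) : ℝ)) := by
    have h1 : Real.exp (σ' * ((p + 1 : ℕ) : ℝ)) =
        Real.exp ((σ' - τ) * ((p + 1 : ℕ) : ℝ)) * Real.exp (τ * ((p + 1 : ℕ) : ℝ)) := by
      rw [← Real.exp_add]; congr 1; ring
    have h2 : 5 * C' ≤ Real.exp ((σ' - τ) * ((p + 1 : ℕ) : ℝ)) := by
      rwa [← Real.log_le_iff_le_exp (by positivity)]
    rw [h1]
    calc 4 * Λ + 1 ≤ 5 * Λ := by linarith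
      _ = 5 * C' * Real.exp (τ * ((p + 1 : ℕ) : ℝ)) := by rw [hΛ]; ring
      _ ≤ _ := mul_le_mul_of_nonneg_right h2 (Real.exp_pos _).le
  have hm2 : ((⌈4 * Λ⌉₊ : ℕ) : ℝ) ≤ Real.exp (σ' * ((p + 1 : ℕ) : ℝ)) := by
    have := Nat.ceil_lt_add_one (a := 4 * Λ) (by positivity)
    linarith
  have hb : ∀ x, ∀ v ∈ Es x, ‖dm E e (h.toHomeomorph^[p + 1] x)
      (dg E (h.toHomeomorph^[p + 1]) x v)‖ ≤ Λ * ‖dm E e x v‖ := by
    intro x v hv
    refine (hg1 (p + 1) x v hv).trans (mul_le_mul_of_nonneg_right ?_ (norm_nonneg _))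
    rw [hΛ]
    refine mul_le_mul hC'2 (Real.exp_le_exp.mpr ?_) (Real.exp_pos _).le (by linarith)
    exact mul_le_mul_of_nonneg_right hτ1 (Nat.cast_nonneg _)
  have hlip := lip_small hiso he1 hinj S hSe hVs (iter_smooth h.toHomeomorph hhs (p + 1)) hΛ0 hb
  have hcomm : ∀ x, h.toHomeomorph^[p + 1] (S.g x) = S.g (h.toHomeomorph^[p + 1] x) := by
    intro x
    rw [hg]
    exact comm_it2 (f := f.toHomeomorph) (h := h.toHomeomorph) hc (p + 1) n₀ x
  obtain ⟨δ₁, hδ₁, I1⟩ := step_image S hcomm hΛ1 hlip (Nat.le_ceil (4 * Λ))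
  obtain ⟨δ₂, hδ₂, I2⟩ := S.subdivide ⌈4 * S.Ls⌉₊ (Nat.le_ceil _)
  set δ := min (min δ₁ δ₂) c with hδ
  have d0 : 0 < δ := by positivity
  have d1 : δ ≤ δ₁ := (min_le_left _ _).trans (min_le_left _ _)
  have d2 : δ ≤ δ₂ := (min_le_left _ _).trans (min_le_right _ _)
  have d3 : δ ≤ c := min_le_right _ _
  have J1 := I1 δ d0 d1
  have J2 : ∀ x y, SR S.g δ x y → Steps S.g δ ⌈4 * S.Ls⌉₊ (S.g.symm x) (S.g.symm y) :=
    fun x y hxy => I2 δ d0 d2 x y hxy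
  rw [hg] at hLP J1 J2
  exact expandsAlong_of_image (f := f.toHomeomorph) (h := h.toHomeomorph) hc hn1 hLP
    (Nat.succ_le_succ (Nat.zero_le p)) d0 d3 J1 J2 hσ'.le hm2

end manifold

end Pool.Agent.K6.helper20.CZ
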