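import Pool.Agent.K6.helper20.CZ.Cent
import Pool.Agent.K6.helper20.CZ.Inf
import Pool.Agent.N234.CP.Final

set_option autoImplicit false
set_option linter.unusedSectionVars false

/-!
# Pinching through the centralizer: Anosov diffeomorphisms
-/

open Filter Topology Set Metric
open scoped Manifold ContDiff Pointwise

namespace Pool.Agent.K6.helper20.CZ

open Pool.Agent.N234.CP Pool.Agent.H721R2 Pool.Agent.H789R2.AN Pool.Agent.H789R2.GP
  Pool.Agent.Y330.J
open Pool.Agent.TH289.K (GPS)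

universe u v w

variable {E : Type u} [NormedAddCommGroup E] [NormedSpace ℝ E] [FiniteDimensional ℝ E]
  {M : Type v} [TopologicalSpace M] [T2Space M] [CompactSpace M] [ConnectedSpace M]
  [ChartedSpace E M] [IsManifold 𝓘(ℝ, E) ∞ M]

/-- **Pinching through the centralizer.** -/
theorem central_pinching (f : Diffeomorph 𝓘(ℝ, E) 𝓘(ℝ, E) M M 1)
    (Es Eu : ∀ x : M, Submodule ℝ (TangentSpace 𝓘(ℝ, E) x)) (hA : IsAnosov f Es Eu)
    (s u : ℝ) (hs : 0 < s) (hu : 0 < u) (h1 : CoarseContracts f s)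
    (h2 : CoarseContracts f.symm u) (h : CentralPinching f.toHomeomorph s u) :
    TopTransitive f ∧ Dense (Function.periodicPts f) ∧ GPS f.toHomeomorph ∧
      (∃ q : E → M, IsCoveringMap q ∧ Function.Surjective q) ∧
      (LogCentralPinching f.toHomeomorph s u →
        ∃ d : ℕ, ∀ (x : M) (S : Set (FundamentalGroup M x)), S.Finite →
          ∃ C : ℕ, ∀ n : ℕ, (S ^ n).ncard ≤ C * (n + 1) ^ d) := by
  obtain ⟨m, e, he, hemb, hinj⟩ := exists_embedding_euclidean_of_compact (I := 𝓘(ℝ, E)) (M := M)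
  let _ : MetricSpace M := hemb.isEmbedding.comapMetricSpace e
  have hiso : ∀ x y : M, dist x y = ‖e x - e y‖ := fun x y => dist_eq_norm (e x) (e y)
  have he1 : ContMDiff 𝓘(ℝ, E) (𝓡 m) 1 e := he.of_le (by simp)
  obtain ⟨C, a, b, Ls, Lu, hE⟩ := eanosov_of_isAnosov e he1 hinj f Es Eu hA
  obtain ⟨n, Sy, hn1, hg, -, -, -, -, -⟩ := exists_sys hiso he1 hinj hE
    (a' := 1) (b' := 1) hE.a_lt hE.b_lt
  obtain ⟨c, hLP⟩ := exists_LP Sy
  have hc := hLP.c_pos
  have hn0 : (0 : ℝ) < n := by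
    have : (1 : ℝ) ≤ n := by exact_mod_cast hn1
    linarith
  have hsym : (iterHomeo f.toHomeomorph n).symm = iterHomeo f.toHomeomorph.symm n := rfl
  obtain ⟨δ₁, hδ₁, R1⟩ := CoarseContracts.loRate (f := f.toHomeomorph) h1 hn1
  obtain ⟨δ₂, hδ₂, R2⟩ := CoarseContracts.loRate (f := f.toHomeomorph.symm) h2 hn1
  obtain ⟨δ₃, hδ₃, R3⟩ := h.pin hs hu hn1
  rw [← hsym] at R2
  rw [← hg] at R1 R2 R3
  have p1 : 0 < s * n := by positivity
  have p2 : 0 < u * n := by positivity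
  have hall : ∀ a s, WS Sy.g a s → Lf Sy.g a s := by
    set δ := min (min δ₁ δ₂) (min δ₃ c) with hδ
    have d0 : 0 < δ := by positivity
    have d1 : δ ≤ δ₁ := (min_le_left _ _).trans (min_le_left _ _)
    have d2 : δ ≤ δ₂ := (min_le_left _ _).trans (min_le_right _ _)
    have d3 : δ ≤ δ₃ := (min_le_right _ _).trans (min_le_left _ _)
    have d4 : δ ≤ c := (min_le_right _ _).trans (min_le_right _ _)
    exact lift_central hLP d0 d4 p1 p2 (R1 δ d0 d1) (R2 δ d0 d2) (R3 δ d0 d3)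
  have : ProperSpace E := FiniteDimensional.proper_real E
  obtain ⟨a1, a2, q₀, hq₀⟩ := abs_main (E' := E) Qsx.main Sy hLP hall hn1 hg
  have hgi : ∀ x, Sy.g x = f^[n] x := fun x => by rw [hg]; rfl
  refine ⟨conclude f hgi a1, fun x => ?_, a2, ⟨q₀, hq₀, covering_surj hq₀⟩, fun hlog => ?_⟩
  · rw [Metric.mem_closure_iff]
    intro ε hε
    obtain ⟨y, N, hN1, hy, hd⟩ := Pool.Agent.H779R2.An.periodic_dense Sy a1 x ε hε
    refine ⟨y, ⟨n * N, Nat.mul_pos hn1 hN1, ?_⟩, by rwa [dist_comm]⟩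
    rw [Function.IsPeriodicPt, Function.IsFixedPt]
    have h3 : Sy.g^[N] = f^[n * N] := by
      rw [Function.iterate_mul]
      congr 1
      funext x
      exact hgi x
    rw [← h3]
    exact hy
  · have hX : ULC M := ulc_of_charted (X := M) (E := E)
    obtain ⟨c₁, hc₁, hsl⟩ := Pool.Agent.Y330.H.exists_sl hLP
    have hex := ex_of_lf hLP hc₁ hsl hall
    obtain ⟨δ₄, hδ₄, R4⟩ := hlog.pin hs hu hn1
    rw [← hg] at R4
    set δ := min (min δ₁ δ₂) (min δ₄ c) with hδ
    have d0 : 0 < δ := by positivity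
    have d1 : δ ≤ δ₁ := (min_le_left _ _).trans (min_le_left _ _)
    have d2 : δ ≤ δ₂ := (min_le_left _ _).trans (min_le_right _ _)
    have d3 : δ ≤ δ₄ := (min_le_right _ _).trans (min_le_left _ _)
    have d4 : δ ≤ c := (min_le_right _ _).trans (min_le_right _ _)
    exact growth_central hLP hX hex d0 d4 p1 p2 (R1 δ d0 d1) (R2 δ d0 d2) (R4 δ d0 d3)

/-- the composition of `f^q` and `h` -/
noncomputable def compIter (f h : Diffeomorph 𝓘(ℝ, E) 𝓘(ℝ, E) M M 1) (q : ℕ) :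
    Diffeomorph 𝓘(ℝ, E) 𝓘(ℝ, E) M M 1 where
  toEquiv := (h.toHomeomorph.trans (iterHomeo f.toHomeomorph q)).toEquiv
  contMDiff_toFun := (iter_smooth f f.contMDiff q).comp h.contMDiff
  contMDiff_invFun := h.symm.contMDiff.comp (iter_smooth f.symm f.symm.contMDiff q)

/-- **Pinching through the centralizer, infinitesimal form.** -/
theorem factor_pinching (f h : Diffeomorph 𝓘(ℝ, E) 𝓘(ℝ, E) M M 1)
    (Es Eu : ∀ x : M, Submodule ℝ (TangentSpace 𝓘(ℝ, E) x)) (hA : IsAnosov f Es Eu)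
    (q : ℕ) (hq : 1 ≤ q) (hc : ∀ x, h (f x) = f (h x))
    (s u σ υ : ℝ) (hs : 0 < s) (hu : 0 < u) (h1 : ContractsAt f Es s)
    (h2 : ContractsAt f.symm Eu u) (h3 : ContractsAt h Es (-σ))
    (h4 : ContractsAt (fun x => f^[q] (h x)) Eu (-υ)) (hσ : σ < q * s) (hυ : υ < q * u) :
    TopTransitive f ∧ Dense (Function.periodicPts f) ∧ GPS f.toHomeomorph ∧
      (∃ q : E → M, IsCoveringMap q ∧ Function.Surjective q) ∧
      ∃ d : ℕ, ∀ (x : M) (S : Set (FundamentalGroup M x)), S.Finite →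
        ∃ C : ℕ, ∀ n : ℕ, (S ^ n).ncard ≤ C * (n + 1) ^ d := by
  have hq0 : (1 : ℝ) ≤ q := by exact_mod_cast hq
  have choice : ∀ s σ : ℝ, 0 < s → σ < q * s → ∃ s' σ' : ℝ, 0 < s' ∧ s' < s ∧ 0 < σ' ∧
      σ < σ' ∧ σ' < q * s' := by
    intro s σ hs hlt
    obtain ⟨y, y1, y2⟩ := exists_between (show max σ 0 < q * s from max_lt hlt (by positivity))
    have y3 : 0 < y := (le_max_right _ _).trans_lt y1
    have y4 : σ < y := (le_max_left _ _).trans_lt y1
    obtain ⟨s', z1, z2⟩ := exists_between (show y / q < s by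
      rw [div_lt_iff₀ (by linarith)]
      linarith)
    have z3 : 0 < y / q := by positivity
    have z4 : 0 < s' := z3.trans z1
    rw [div_lt_iff₀ (by linarith)] at z1
    exact ⟨s', y, z4, z2, y3, y4, by linarith⟩
  obtain ⟨s', σ', a1, a2, a3, a4, a5⟩ := choice s σ hs hσ
  obtain ⟨u', υ', b1, b2, b3, b4, b5⟩ := choice u υ hu hυ
  have hAs := Pool.Agent.W740.TU.anosov_symm f Es Eu hA
  have c1 : CoarseContracts f s' := coarse_of_contractsAt f Es Eu hA s h1 s' a1 a2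
  have c2 : CoarseContracts f.symm u' := coarse_of_contractsAt f.symm Eu Es hAs u h2 u' b1 b2
  have hHf : ∀ x, compIter f h q (f.symm x) = f.symm (compIter f h q x) := fun x => by
    have hcs : h (f.symm x) = f.symm (h x) := comm_sy (f := f.toHomeomorph)
      (h := h.toHomeomorph) hc x
    have h5 : f^[q] (f.symm (h x)) = f.symm (f^[q] (h x)) :=
      comm_it (f := f.symm) (h := f) (fun y => by
        rw [f.apply_symm_apply, f.symm_apply_apply]) q (h x)
    show f^[q] (h (f.symm x)) = f.symm (f^[q] (h x))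
    rw [hcs, h5]
  have e1 : ExpandsAlong f h σ' := expandsAlong_of_deriv f Es Eu hA h hc σ σ' a3 a4 h3
  have e2 : ExpandsAlong f.symm (compIter f h q) υ' :=
    expandsAlong_of_deriv f.symm Eu Es hAs (compIter f h q) hHf υ υ' b3 b4 h4
  have hlog : LogCentralPinching f.toHomeomorph s' u' :=
    log_of_factors (f := f.toHomeomorph) (h := h.toHomeomorph) hq hc a5 b5 e1 e2
  obtain ⟨t1, t2, t3, t4, t5⟩ := central_pinching f Es Eu hA s' u' a1 b1 c1 c2 hlog.central
  exact ⟨t1, t2, t3, t4, t5 hlog⟩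

end Pool.Agent.K6.helper20.CZ
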