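import Pool.Agent.K6.helper20.CZ.Sub
import Pool.Agent.H721R2.Chain
import Pool.Agent.N234.CP.Top2

set_option autoImplicit false

/-!
# Growth of the stable sets under a commuting homeomorphism
-/

open Filter Topology Set Metric

namespace Pool.Agent.K6.helper20.CZ

open Pool.Agent.N234.CP Pool.Agent.H721R2 Pool.Agent.H789R2.AN Pool.Agent.H789R2.GP

/-- **Coarse growth of the stable sets of `f` along `h`.**  For some neighbourhood `𝒰₀` of the
diagonal and every neighbourhood `𝒰` of the diagonal there is a constant `C` such that `hⁿ x` and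
`hⁿ y` are joined by at most `C exp (σ n)` stable `𝒰`-steps of `f`, if `x` and `y` are stably
`𝒰₀`-close for `f`.  (For `h = f⁻¹` this is `CoarseExpands f σ`.) -/
def ExpandsAlong {M : Type*} [TopologicalSpace M] (f h : M → M) (σ : ℝ) : Prop :=
  ∃ 𝒰₀ ∈ 𝓝ˢ (diagonal M), ∀ 𝒰 ∈ 𝓝ˢ (diagonal M), ∃ C : ℝ, ∀ x y : M,
    StableClose f 𝒰₀ x y → ∀ n : ℕ, ∃ N : ℕ, (N : ℝ) ≤ C * Real.exp (σ * n) ∧
      StableChain f 𝒰 N (h^[n] x) (h^[n] y)

theorem comm_it {X : Type*} {f h : X → X} (hc : ∀ x, h (f x) = f (h x)) (p : ℕ) (z : X) :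
    h^[p] (f z) = f (h^[p] z) := by
  induction p with
  | zero => rfl
  | succ p ih => rw [Function.iterate_succ_apply', Function.iterate_succ_apply', ih, hc]

theorem comm_it2 {X : Type*} {f h : X → X} (hc : ∀ x, h (f x) = f (h x)) (p k : ℕ) (z : X) :
    h^[p] (f^[k] z) = f^[k] (h^[p] z) := by
  induction k with
  | zero => rfl
  | succ k ih => rw [Function.iterate_succ_apply', Function.iterate_succ_apply', comm_it hc, ih]

theorem comm_sy {X : Type*} [TopologicalSpace X] {f h : X ≃ₜ X} (hc : ∀ x, h (f x) = f (h x))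
    (x : X) : h (f.symm x) = f.symm (h x) := by
  apply f.injective
  rw [← hc, f.apply_symm_apply, f.apply_symm_apply]

section

variable {X E : Type*} [MetricSpace X] [NormedAddCommGroup E] [NormedSpace ℝ E]

/-- the image of a stable step by a commuting map -/
theorem step_image [CompactSpace X] (S : HypSys X E) {φ : X → X}
    (hφ : ∀ x, φ (S.g x) = S.g (φ x)) {Λ : ℝ} (hΛ : 1 ≤ Λ)
    (hL : ∃ r > 0, ∀ x y, S.SRel r x y → dist (φ x) (φ y) ≤ 2 * Λ * dist x y) {m : ℕ}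
    (hm : 4 * Λ ≤ m) : ∃ δ₁ > 0, ∀ δ, 0 < δ → δ ≤ δ₁ → ∀ x y, SR S.g δ x y →
      Steps S.g δ m (φ x) (φ y) := by
  obtain ⟨r, hr, h1⟩ := hL
  obtain ⟨R0, hR0, h2⟩ := subdivide_pair S hΛ m hm
  have hK := S.one_le_K
  have hK0 : 0 < S.K := by linarith
  have hΛ0 : 0 < Λ := by linarith
  refine ⟨min r (R0 / (144 * S.K * Λ)), lt_min hr (by positivity), fun δ hδ hle x y hxy => ?_⟩
  have hle1 : δ ≤ r := hle.trans (min_le_left _ _)
  have hle2 : 144 * S.K * Λ * δ ≤ R0 := by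
    have := hle.trans (min_le_right _ _)
    rw [le_div_iff₀ (by positivity)] at this
    linarith
  have hcom : ∀ (k : ℕ) (z : X), φ (S.g^[k] z) = S.g^[k] (φ z) := by
    intro k
    induction k with
    | zero => intro z; rfl
    | succ k ih =>
      intro z
      rw [Function.iterate_succ_apply', Function.iterate_succ_apply', hφ, ih]
  have h3 : ∀ k : ℕ, dist (S.g^[k] (φ x)) (S.g^[k] (φ y)) ≤ 2 * Λ * δ := by
    intro k
    rw [← hcom, ← hcom]
    refine (h1 _ _ ?_).trans (mul_le_mul_of_nonneg_left (hxy k) (by positivity))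
    exact (SR.iter hxy k).mono hle1
  have h4 : S.SRel R0 (φ x) (φ y) := fun k => (h3 k).trans (by nlinarith)
  obtain ⟨z, z0, z1, hz⟩ := h2 δ hδ hle2 (φ x) (φ y) h4 (h3 0)
  exact ⟨z, z0, z1, hz⟩

theorem steps_image {g : X ≃ₜ X} {φ : X → X} {δ : ℝ} {m N : ℕ}
    (h : ∀ x y, SR g δ x y → Steps g δ m (φ x) (φ y)) {x y : X} (hxy : Steps g δ N x y) :
    Steps g δ (m * N) (φ x) (φ y) :=
  Chain.flatten (R := SR g δ) (R' := SR g δ) φ h hxy

theorem steps_iter {g : X ≃ₜ X} {φ : X → X} {δ : ℝ} {m N : ℕ}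
    (h : ∀ x y, SR g δ x y → Steps g δ m (φ x) (φ y)) {x y : X} (hxy : Steps g δ N x y) (j : ℕ) :
    Steps g δ (m ^ j * N) (φ^[j] x) (φ^[j] y) := by
  induction j with
  | zero => simpa using hxy
  | succ j ih =>
    have := steps_image h ih
    rw [Function.iterate_succ_apply', Function.iterate_succ_apply', pow_succ, mul_comm (m ^ j) m,
      mul_assoc]
    exact this

theorem steps_single {g : X ≃ₜ X} {δ : ℝ} {x y : X} (h : SR g δ x y) : Steps g δ 1 x y :=
  Chain.single (R := SR g δ) h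

/-- From the images of stable steps of an iterate to coarse growth. -/
theorem expandsAlong_of_image [CompactSpace X] {f : X ≃ₜ X} {h : X ≃ₜ X}
    (hc : ∀ x, h (f x) = f (h x)) {m₀ : ℕ} (hm₀ : 1 ≤ m₀) {c : ℝ} (hLP : LP (iterHomeo f m₀) c)
    {p m m' : ℕ} (hp : 1 ≤ p) {δ : ℝ} (hδ : 0 < δ) (hδc : δ ≤ c)
    (hst : ∀ x y, SR (iterHomeo f m₀) δ x y → Steps (iterHomeo f m₀) δ m (h^[p] x) (h^[p] y))
    (hst' : ∀ x y, SR (iterHomeo f m₀) δ x y →
      Steps (iterHomeo f m₀) δ m' ((iterHomeo f m₀).symm x) ((iterHomeo f m₀).symm y))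
    {σ : ℝ} (hσ : 0 ≤ σ) (hm : (m : ℝ) ≤ Real.exp (σ * p)) : ExpandsAlong f h σ := by
  refine ⟨{q | dist q.1 q.2 < δ}, diag_mem.2 ⟨δ, hδ, fun x y h => h⟩, fun 𝒰 h𝒰 => ?_⟩
  obtain ⟨ε, hε, h1⟩ := diag_mem.1 h𝒰
  obtain ⟨η, hη, h2⟩ := T1_unif h p hε
  obtain ⟨ρ, hρ, h3⟩ := close_of_SR f hm₀ (𝒰 := {q | dist q.1 q.2 < η})
    (diag_mem.2 ⟨η, hη, fun x y h => h⟩)
  obtain ⟨M₀, hM₀⟩ := qs_exists_pow hLP.c_pos hρ
  refine ⟨(m' : ℝ) ^ M₀, fun x y hxy n => ?_⟩
  have hxy' : SR (iterHomeo f m₀) δ x y := SR_of_close f m₀ (fun p hp => le_of_lt hp) hxy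
  have s1 := steps_iter hst' (steps_single hxy') M₀
  have s2 := steps_iter hst s1 (n / p)
  have s3 := s2.push hLP hδc hM₀
  have hcf : ∀ z, (h^[p]) (f z) = f (h^[p] z) := fun z => comm_it hc p z
  have hcg : ∀ (j : ℕ) (z : X), (h^[p])^[j] ((iterHomeo f m₀).symm^[M₀] z) =
      (iterHomeo f m₀).symm^[M₀] ((h^[p])^[j] z) := by
    intro j z
    rw [iterHomeo_symm_iter, iterHomeo_symm_iter, ← Function.iterate_mul]
    exact comm_it2 (comm_sy hc) _ _ z
  have e1 : ∀ z : X, (iterHomeo f m₀)^[M₀] ((h^[p])^[n / p] ((iterHomeo f m₀).symm^[M₀] z)) =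
      h^[p * (n / p)] z := fun z => by
    rw [hcg, iterR, ← Function.iterate_mul]
  rw [e1, e1] at s3
  obtain ⟨z, z0, z1, hz⟩ := s3
  have hn : n = n % p + p * (n / p) := (Nat.mod_add_div n p).symm
  have hr : n % p < p := Nat.mod_lt _ (by omega)
  have e2 : ∀ w : X, h^[n % p] (h^[p * (n / p)] w) = h^[n] w := fun w => by
    rw [← Function.iterate_add_apply, ← hn]
  refine ⟨m ^ (n / p) * (m' ^ M₀ * 1), ?_, fun i => h^[n % p] (z i), ?_, ?_, fun i hi k => ?_⟩
  · have e : ((m ^ (n / p) * (m' ^ M₀ * 1) : ℕ) : ℝ) = (m' : ℝ) ^ M₀ * (m : ℝ) ^ (n / p) := by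
      push_cast
      ring
    rw [e]
    apply mul_le_mul_of_nonneg_left _ (by positivity)
    calc (m : ℝ) ^ (n / p) ≤ Real.exp (σ * p) ^ (n / p) :=
          pow_le_pow_left₀ (Nat.cast_nonneg _) hm _
      _ = Real.exp (σ * ((p * (n / p) : ℕ) : ℝ)) := by
          rw [← Real.exp_nat_mul]
          congr 1
          push_cast
          ring
      _ ≤ _ := by
          apply Real.exp_le_exp.mpr
          apply mul_le_mul_of_nonneg_left _ hσ
          exact_mod_cast Nat.mul_div_le n p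
  · show h^[n % p] (z 0) = _
    rw [z0, e2]
  · show h^[n % p] (z _) = _
    rw [z1, e2]
  · have h5 := h3 _ _ (hz i hi) k
    have h6 := h2 (n % p) hr.le _ _ h5
    rw [comm_it2 hc, comm_it2 hc] at h6
    exact h1 _ _ h6

end

end Pool.Agent.K6.helper20.CZ
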