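import Pool.Agent.K6.helper20.CZ.Lift
import Pool.Agent.N234.CP.Grow

set_option autoImplicit false
set_option linter.unusedSectionVars false

/-!
# Pinching through the centralizer: polynomial growth of the fundamental group
-/

open Filter Topology Set Metric unitInterval
open scoped Pointwise

namespace Pool.Agent.K6.helper20.CZ

open Pool.Agent.N234.CP Pool.Agent.H721R2 Pool.Agent.H789R2.AN Pool.Agent.H789R2.GP
  Pool.Agent.Y330.J

variable {X : Type*} [MetricSpace X] [CompactSpace X] {g : X ≃ₜ X} {c : ℝ}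

/-- the image of a class under a homeomorphism -/
def im (φ : X ≃ₜ X) {x y : X} (α : Path.Homotopic.Quotient x y) :
    Path.Homotopic.Quotient (φ x) (φ y) :=
  α.map (φ : C(X, X))

theorem im_trans (φ : X ≃ₜ X) {x y z : X} (α : Path.Homotopic.Quotient x y)
    (β : Path.Homotopic.Quotient y z) : im φ (α.trans β) = (im φ α).trans (im φ β) := by
  obtain ⟨p, rfl⟩ := Path.Homotopic.Quotient.mk_surjective α
  obtain ⟨q, rfl⟩ := Path.Homotopic.Quotient.mk_surjective β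
  unfold im
  rw [← Path.Homotopic.Quotient.mk_trans, ← Path.Homotopic.Quotient.mk_map,
    ← Path.Homotopic.Quotient.mk_map, ← Path.Homotopic.Quotient.mk_map,
    ← Path.Homotopic.Quotient.mk_trans, Path.map_trans]

theorem im_refl (φ : X ≃ₜ X) (x : X) :
    im φ (Path.Homotopic.Quotient.refl x) = Path.Homotopic.Quotient.refl (φ x) := by
  unfold im
  rw [← Path.Homotopic.Quotient.mk_refl, ← Path.Homotopic.Quotient.mk_map,
    ← Path.Homotopic.Quotient.mk_refl]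
  congr 1

theorem im_injective (φ : X ≃ₜ X) {x y : X} : Function.Injective (im φ (x := x) (y := y)) := by
  intro α β h
  obtain ⟨p, rfl⟩ := Path.Homotopic.Quotient.mk_surjective α
  obtain ⟨q, rfl⟩ := Path.Homotopic.Quotient.mk_surjective β
  unfold im at h
  rw [← Path.Homotopic.Quotient.mk_map, ← Path.Homotopic.Quotient.mk_map] at h
  have h1 := Path.Homotopic.Quotient.eq.1 h
  apply Path.Homotopic.Quotient.eq.2
  have h2 := h1.map (φ.symm : C(X, X))
  obtain ⟨F⟩ := h2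
  refine ⟨⟨⟨⟨fun a => F a, F.continuous⟩, fun t => ?_, fun t => ?_⟩, fun s t ht => ?_⟩⟩
  · have := F.apply_zero t
    simpa using this
  · have := F.apply_one t
    simpa using this
  · have := F.prop' s t ht
    simpa using this

theorem scl_im {φ : X ≃ₜ X} (hg : LP g c) (hc : ∀ x, φ (g x) = g (φ x)) {x y : X}
    {α : Path.Homotopic.Quotient x y} (h : Scl g α) : Scl g (im φ α) := by
  obtain ⟨p, hp, rfl⟩ := h
  obtain ⟨v, hv⟩ := hp.sm
  let w : C(I, SM g) := ⟨fun t => ⟨φ^[1] (v t).val⟩,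
    (SM.continuous_mapIter hc 1).comp v.continuous⟩
  refine ⟨p.map φ.continuous, lpath_of_sm hg w (p.map φ.continuous) fun t => ?_, ?_⟩
  · show φ (p t) = φ (v t).val
    rw [hv]
  · exact (Path.Homotopic.Quotient.mk_map p (φ : C(X, X))).symm

/-- counting -/
theorem card_of_cor (hg : LP g c) (hX : ULC X) {Q : ℕ} {col : X → Fin (Q + 1)}
    (hcol : ∀ x y : X, col x = col y → dist x y ≤ c) {φ : X ≃ₜ X} {i j : ℕ} {x : X}
    (A : Set (FundamentalGroup X x)) (hA : ∀ α ∈ A, Cor g c i j (im φ (x := x) (y := x) α)) :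
    A.ncard ≤ (Q + 1) ^ (i + j + 1) := by
  classical
  have hne : Nonempty X := ⟨x⟩
  have hA' : ∀ α ∈ A, ∃ y : X, ∃ (p : Path.Homotopic.Quotient (φ x) y)
      (q : Path.Homotopic.Quotient y (φ x)), Scl g.symm p ∧ Scl g q ∧
      im φ (x := x) (y := x) α = p.trans q ∧
      (∀ l ≥ i, dist (g.symm^[l] (φ x)) (g.symm^[l] y) ≤ c / 2) ∧
      ∀ l ≥ j, dist (g^[l] y) (g^[l] (φ x)) ≤ c / 2 := hA
  choose! y hy using hA'
  have hU : ∀ α ∈ A, ∀ l ≥ i, dist (g.symm^[l] (φ x)) (g.symm^[l] (y α)) ≤ c / 2 := by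
    intro α hα
    obtain ⟨p, r, -, -, -, h1, -⟩ := hy α hα
    exact h1
  have hV : ∀ α ∈ A, ∀ l ≥ j, dist (g^[l] (y α)) (g^[l] (φ x)) ≤ c / 2 := by
    intro α hα
    obtain ⟨p, r, -, -, -, -, h1⟩ := hy α hα
    exact h1
  have hinj : Set.InjOn (fun α => fun m : Fin (i + j + 1) =>
      col (g^[(m : ℕ)] (g.symm^[i] (y α)))) A := by
    intro α hα β hβ hab
    have h1 : y α = y β := col_eq hg hcol
      (fun m hm => by
        have := dist_triangle_left (g.symm^[m] (y α)) (g.symm^[m] (y β)) (g.symm^[m] (φ x))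
        linarith [hU α hα m hm, hU β hβ m hm])
      (fun m hm => by
        have := dist_triangle_right (g^[m] (y α)) (g^[m] (y β)) (g^[m] (φ x))
        linarith [hV α hα m hm, hV β hβ m hm])
      (fun m hm => congrFun hab ⟨m, by omega⟩)
    obtain ⟨p, r, p1, r1, e1, -, -⟩ := hy α hα
    obtain ⟨p', r', p2, r2, e2, -, -⟩ := hy β hβ
    apply im_injective φ (x := x) (y := x)
    rw [e1, e2]
    clear e1 e2 hab hα hβ
    generalize y β = yb at *
    subst h1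
    rw [p1.unique hX p2, r1.unique hX r2]
  have h1 := Set.ncard_le_ncard_of_injOn _ (t := (Set.univ : Set (Fin (i + j + 1) → Fin (Q + 1))))
    (fun α _ => mem_univ _) hinj
  rwa [Set.ncard_univ, Nat.card_eq_fintype_card, Fintype.card_fun, Fintype.card_fin,
    Fintype.card_fin] at h1

/-- the pinching condition, with positions which are logarithmic in the ratio -/
def LogPin (g : X ≃ₜ X) (δ κ υ : ℝ) : Prop := ∃ K : ℝ, ∀ R : ℝ, 1 ≤ R →
  ∃ (n : ℕ) (φ : X ≃ₜ X), Real.log R ≤ n ∧ (n : ℝ) ≤ K * (1 + Real.log R) ∧ Pin g δ κ υ R n φ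

/-- products of generators -/
theorem pow_st (hg : LP g c) (hX : ULC X) {br : X → X → X} {δb δ₁ ρ η : ℝ} {m w J₁ L₁ : ℕ}
    (F : Fr g c br δb δ₁ ρ η 0 m (w * J₁) (w * L₁)) {δ : ℝ} {N : ℕ} {x : X} {Ψ : X ≃ₜ X}
    (hΨ : ∀ x, Ψ (g x) = g (Ψ x))
    {S : Set (FundamentalGroup X x)} (hS : ∀ α ∈ S, Gen g δ N (x := x) α)
    (U1 : ∀ a b, SR g δ (g^[N] a) (g^[N] b) → ∃ M ≤ L₁, Steps g ρ M (Ψ a) (Ψ b))
    (U2 : ∀ a b, SR g.symm δ (g.symm^[N] a) (g.symm^[N] b) →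
      ∃ M ≤ J₁, Steps g.symm ρ M (g^[m] (Ψ a)) (g^[m] (Ψ b))) :
    ∀ i ≤ w, ∀ α ∈ S ^ i, ∃ L ≤ i * L₁,
      St g 0 m δ₁ ρ (i * J₁) L (im Ψ (x := x) (y := x) α) := by
  intro i
  induction i with
  | zero =>
    intro _ α hα
    rw [pow_zero, Set.mem_one] at hα
    rw [hα, FundamentalGroup.one_def]
    refine ⟨0, Nat.zero_le _, ?_⟩
    have h1 : im Ψ (x := x) (y := x) (Path.Homotopic.Quotient.refl x) =
        Path.Homotopic.Quotient.refl (Ψ x) := im_refl Ψ x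
    rw [h1]
    exact (St.init g 0 m δ₁ ρ (Ψ x)).mono (Nat.zero_le _)
  | succ i ih =>
    intro hi α hα
    rw [pow_succ'] at hα
    obtain ⟨γ, hγ, β, hβ, rfl⟩ := Set.mem_mul.1 hα
    rw [FundamentalGroup.mul_def]
    obtain ⟨L, hL, h1⟩ := ih (by omega) β hβ
    obtain ⟨y, p, q, hp, hq, he, s1, s2⟩ := hS γ hγ
    obtain ⟨M, hM, t1⟩ := U2 _ _ s1
    obtain ⟨M', hM', t2⟩ := U1 _ _ s2
    have hn1 : (i + 1) * J₁ ≤ w * J₁ := Nat.mul_le_mul_right _ hi
    have hn2 : (i + 1) * L₁ ≤ w * L₁ := Nat.mul_le_mul_right _ hi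
    have a1 : (i + 1) * J₁ = i * J₁ + J₁ := by ring
    have a2 : (i + 1) * L₁ = i * L₁ + L₁ := by ring
    have hp' : Scl g.symm (im Ψ p) := scl_im hg.symm (comm_symm hΨ) hp
    have hq' : Scl g (im Ψ q) := scl_im hg hΨ hq
    have h2 := h1.stepsU hg hX F (N := M) (by omega) (by omega) hp' t1
    have h3 := h2.stepsS hg hX F.hρδ (by linarith [F.hδ₁, F.hρ0, F.hρδ]) hq' t2
    refine ⟨L + M', by omega, ?_⟩
    have h4 : im Ψ (x := x) (y := x) ((β : Path.Homotopic.Quotient x x).trans γ) =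
        ((im Ψ (x := x) (y := x) β).trans (im Ψ p)).trans (im Ψ q) := by
      have e : (γ : Path.Homotopic.Quotient x x) = p.trans q := he
      rw [im_trans, e, im_trans, Path.Homotopic.Quotient.trans_assoc]
    rw [h4]
    exact h3.mono (by omega)

/-- **Polynomial growth** when the pinching happens through the centralizer, abstract form. -/
theorem growth_central (hg : LP g c) (hX : ULC X) (hex : Ex g) {δ : ℝ} (hδ : 0 < δ)
    (hδc : δ ≤ c) {κ υ : ℝ} (hκ : 0 < κ) (hυ : 0 < υ) (hS : LoRate g δ κ)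
    (hU : LoRate g.symm δ υ) (hP : LogPin g δ κ υ) :
    ∃ d : ℕ, ∀ (x : X) (S : Set (FundamentalGroup X x)), S.Finite →
      ∃ C : ℕ, ∀ n : ℕ, (S ^ n).ncard ≤ C * (n + 1) ^ d := by
  have hc := hg.c_pos
  obtain ⟨br, δb, hb⟩ := exists_BrP hg
  obtain ⟨δq, hδq, hsq⟩ := square hg hX
  obtain ⟨Q, col, hcol⟩ := exists_col X hc
  obtain ⟨K, hK⟩ := hP
  -- scales
  set δ₁ := min (min δ (c / 3)) δq with hδ₁
  have d0 : 0 < δ₁ := lt_min (lt_min hδ (by linarith)) hδq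
  have d1 : δ₁ ≤ δ := (min_le_left _ _).trans (min_le_left _ _)
  have d2 : 3 * δ₁ ≤ c := by
    have : δ₁ ≤ c / 3 := (min_le_left _ _).trans (min_le_right _ _)
    linarith
  have d3 : δ₁ ≤ δq := min_le_right _ _
  obtain ⟨η₁, hη₁, hb2⟩ := hb.b2 δ₁ d0
  set η := min η₁ δb with hη
  have e0 : 0 < η := lt_min hη₁ hb.pos
  obtain ⟨ηg, hηg, hgap⟩ := qs_SR_of_dist hg δ₁ d0
  set ρ := min δ₁ (min (η / 4) (ηg / 4)) with hρ
  have r0 : 0 < ρ := by positivity
  have r1 : ρ ≤ δ₁ := min_le_left _ _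
  have r2 : ρ ≤ η / 4 := (min_le_right _ _).trans (min_le_left _ _)
  have r3 : ρ ≤ ηg / 4 := (min_le_right _ _).trans (min_le_right _ _)
  obtain ⟨D₁, hD₁, V1⟩ := hS.fine hg hκ hδc r0
  obtain ⟨D₂, hD₂, V2⟩ := hU.fine hg.symm hυ hδc r0
  obtain ⟨M₀, hM₀⟩ := qs_exists_pow hg.c_pos r0
  refine ⟨Q * ⌈|K|⌉₊, fun x S hSf => ?_⟩
  obtain ⟨N, hN⟩ := Gen.finite (c := c) hg hX hex hδ hSf
  set T := 2 * M₀ + 2 * N with hT
  set W := max (Real.exp T) (max (D₁ * Real.exp (κ * T)) (D₂ * Real.exp (υ * T))) with hW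
  have hW0 : Real.exp T ≤ W := le_max_left _ _
  have hW1 : D₁ * Real.exp (κ * T) ≤ W := (le_max_left _ _).trans (le_max_right _ _)
  have hW2 : D₂ * Real.exp (υ * T) ≤ W := (le_max_right _ _).trans (le_max_right _ _)
  have hWp : 1 ≤ W := by
    refine le_trans ?_ hW0
    rw [Real.one_le_exp_iff]
    exact Nat.cast_nonneg _
  have hW00 : 0 < W := by linarith
  refine ⟨(2 ^ Q) ^ (⌈|K| * (2 + Real.log W)⌉₊ + 1), fun w => ?_⟩
  have hw0 : (0 : ℝ) ≤ w := Nat.cast_nonneg _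
  have hw1 : (0 : ℝ) < (w : ℝ) + 1 := by positivity
  obtain ⟨n, φ, hRn, hnK, hcomm, hs1, hu1⟩ := hK (W * (w + 1)) (by nlinarith)
  set R := W * ((w : ℝ) + 1) with hR
  have hR0 : 0 < R := by positivity
  have hlogR : Real.log R = Real.log W + Real.log (w + 1) := Real.log_mul hW00.ne' hw1.ne'
  have hlog0 : 0 ≤ Real.log ((w : ℝ) + 1) := Real.log_nonneg (by linarith)
  have hTn : T ≤ n := by
    have h1 : (T : ℝ) ≤ Real.log W := (Real.le_log_iff_exp_le hW00).2 hW0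
    have h2 : (T : ℝ) ≤ n := by linarith
    exact_mod_cast h2
  obtain ⟨n', rfl⟩ : ∃ n', n = n' + T := ⟨n - T, by omega⟩
  set Ψ := shift g φ (M₀ + N) with hΨ
  have hΨc : ∀ x, Ψ (g x) = g (Ψ x) := shift_comm hcomm _
  have hΨa : ∀ x, Ψ x = g^[M₀ + N] (φ x) := fun x => rfl
  set L₁ := ⌊Real.exp (κ * ((n' + T : ℕ) : ℝ)) / R⌋₊ with hL₁
  set J₁ := ⌊Real.exp (υ * ((n' + T : ℕ) : ℝ)) / R⌋₊ with hJ₁
  have K1 : D₁ * w * (L₁ : ℝ) ≤ Real.exp (κ * n') := by
    refine exp_shift (T := T) (R := R) ?_ ?_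
    · calc D₁ * w * Real.exp (κ * T) = D₁ * Real.exp (κ * T) * w := by ring
        _ ≤ W * (w + 1) := mul_le_mul hW1 (by linarith) hw0 hW00.le
    · have := Nat.floor_le (a := Real.exp (κ * ((n' + T : ℕ) : ℝ)) / R) (by positivity)
      rw [← hL₁, le_div_iff₀ hR0] at this
      linarith
  have K2 : D₂ * w * (J₁ : ℝ) ≤ Real.exp (υ * n') := by
    refine exp_shift (T := T) (R := R) ?_ ?_
    · calc D₂ * w * Real.exp (υ * T) = D₂ * Real.exp (υ * T) * w := by ring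
        _ ≤ W * (w + 1) := mul_le_mul hW2 (by linarith) hw0 hW00.le
    · have := Nat.floor_le (a := Real.exp (υ * ((n' + T : ℕ) : ℝ)) / R) (by positivity)
      rw [← hJ₁, le_div_iff₀ hR0] at this
      linarith
  have F : Fr g c br δb δ₁ ρ η 0 n' (w * J₁) (w * L₁) := {
    hb := hb
    hδ₁ := d2
    hρ0 := r0.le
    hρδ := r1
    hρη := by linarith
    hη := min_le_right _ _
    b2 := fun x y hxy => hb2 x y (hxy.trans_le (min_le_left _ _))
    gap := fun x y hxy hd => hgap x y hxy (by linarith)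
    CS := by
      intro i hi a b hs
      refine V1 i n' a b ?_ (hs.mono d1)
      have h1 : (i : ℝ) ≤ w * L₁ := by exact_mod_cast hi
      calc D₁ * i ≤ D₁ * (w * L₁) := mul_le_mul_of_nonneg_left h1 (by linarith)
        _ = D₁ * w * L₁ := by ring
        _ ≤ _ := K1
    CU := by
      intro i hi a b hs
      have h5 := V2 i n' _ _ (by
        have h1 : (i : ℝ) ≤ w * J₁ := by exact_mod_cast hi
        calc D₂ * i ≤ D₂ * (w * J₁) := mul_le_mul_of_nonneg_left h1 (by linarith)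
          _ = D₂ * w * J₁ := by ring
          _ ≤ _ := K2) (hs.mono d1)
      rwa [iterL, iterL] at h5
    sq := fun hα hβ hβ' hα' s1 s2 s3 s4 => hsq n' hα hβ hβ' hα' (s1.mono d3) (s2.mono d3)
      (s3.mono d3) (s4.mono d3) }
  have eS : ∀ x : X, g^[M₀] (φ (g^[N] x)) = Ψ x := fun x => by
    rw [comm_iter hcomm, hΨa, Function.iterate_add_apply]
  have eU : ∀ x : X, g.symm^[M₀] (g^[n' + T] (φ (g.symm^[N] x))) = g^[n'] (Ψ x) := fun x => by
    have e1 : φ (g.symm^[N] x) = g.symm^[N] (φ x) := comm_iter (comm_symm hcomm) N x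
    rw [e1, hΨa]
    have e2 : ∀ w : X, g^[n' + T] w = g^[M₀] (g^[n'] (g^[M₀ + N] (g^[N] w))) := fun w => by
      rw [← Function.iterate_add_apply, ← Function.iterate_add_apply, ← Function.iterate_add_apply]
      congr 1
      omega
    rw [e2, iterR, iterL]
  have hpow := pow_st hg hX F hΨc hN
    (fun a b hab => by
      obtain ⟨M, hM, hs⟩ := hs1 _ _ hab
      have h1 := hs.push hg hδc hM₀
      rw [eS, eS] at h1
      refine ⟨M, Nat.le_floor ?_, h1⟩
      rw [le_div_iff₀ hR0]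
      linarith)
    (fun a b hab => by
      obtain ⟨M, hM, hs⟩ := hu1 _ _ hab
      have h1 := hs.push hg.symm hδc hM₀
      rw [eU, eU] at h1
      refine ⟨M, Nat.le_floor ?_, h1⟩
      rw [le_div_iff₀ hR0]
      linarith) w le_rfl
  have hcard : (S ^ w).ncard ≤ (Q + 1) ^ (0 + n' + 1) := by
    refine card_of_cor hg hX hcol (φ := Ψ) (S ^ w) fun α hα => ?_
    obtain ⟨L, hL, y, p, b, b', α', β', h5, h6, h7, h8, h9, ⟨i, hi, h10⟩, h11⟩ := hpow α hα
    subst h5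
    have hρc : ρ ≤ c / 2 := by linarith
    have s1 := F.CU i hi _ _ h10
    have s2 : SR g ρ (g^[n'] (p 0)) (g^[n'] (Ψ x)) := by
      apply F.CS L hL
      rw [← h6]
      exact ⟨fun t => p t, rfl, rfl, fun t ht => (h11 t ht).1⟩
    refine ⟨p 0, α', β', h7, h8, h9, fun l _ => ?_, fun l hl => ?_⟩
    · exact (s1 l).trans hρc
    · have := s2 (l - n')
      rw [← Function.iterate_add_apply, ← Function.iterate_add_apply,
        Nat.sub_add_cancel hl] at this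
      exact this.trans hρc
  have a3 : Real.log ((w : ℝ) + 1) ≤ (Nat.log 2 (w + 1) : ℝ) + 1 := by
    have b1 : w + 1 < 2 ^ (Nat.log 2 (w + 1) + 1) :=
      Nat.lt_pow_succ_log_self (by norm_num) _
    have b2 : ((w : ℝ) + 1) ≤ 2 ^ (Nat.log 2 (w + 1) + 1) := by exact_mod_cast b1.le
    have b3 := Real.log_le_log hw1 b2
    rw [Real.log_pow] at b3
    have b4 : Real.log 2 ≤ 1 := by
      have := Real.log_two_lt_d9
      linarith
    have b5 : (0 : ℝ) ≤ ((Nat.log 2 (w + 1) + 1 : ℕ) : ℝ) := Nat.cast_nonneg _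
    calc _ ≤ ((Nat.log 2 (w + 1) + 1 : ℕ) : ℝ) * Real.log 2 := b3
      _ ≤ ((Nat.log 2 (w + 1) + 1 : ℕ) : ℝ) * 1 := mul_le_mul_of_nonneg_left b4 b5
      _ = _ := by push_cast; ring
  have hlogW : 0 ≤ Real.log W := Real.log_nonneg hWp
  have a4 : n' + T ≤ ⌈|K| * (2 + Real.log W)⌉₊ + ⌈|K|⌉₊ * Nat.log 2 (w + 1) := by
    have c1 := Nat.le_ceil (|K| * (2 + Real.log W))
    have c2 := mul_le_mul_of_nonneg_right (Nat.le_ceil |K|)
      (Nat.cast_nonneg (α := ℝ) (Nat.log 2 (w + 1)))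
    have c3 : K * (1 + Real.log R) ≤ |K| * (1 + Real.log R) :=
      mul_le_mul_of_nonneg_right (le_abs_self K) (by linarith)
    have c4 : |K| * (1 + Real.log R) ≤ |K| * (1 + (Real.log W + ((Nat.log 2 (w + 1) : ℝ) + 1))) :=
      mul_le_mul_of_nonneg_left (by linarith) (abs_nonneg K)
    have c5 : ((n' + T : ℕ) : ℝ) ≤ ((⌈|K| * (2 + Real.log W)⌉₊ +
        ⌈|K|⌉₊ * Nat.log 2 (w + 1) : ℕ) : ℝ) := by
      push_cast
      push_cast at hnK
      nlinarith
    exact_mod_cast c5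
  have hQ2 : (Q + 1) ^ (0 + n' + 1) ≤ (2 ^ Q) ^ (0 + n' + 1) :=
    Nat.pow_le_pow_left Nat.lt_two_pow_self _
  have h3 : (2 ^ Q) ^ (0 + n' + 1) ≤
      (2 ^ Q) ^ (⌈|K| * (2 + Real.log W)⌉₊ + 1 + ⌈|K|⌉₊ * Nat.log 2 (w + 1)) :=
    Nat.pow_le_pow_right (by positivity) (by omega)
  have h4 : (2 ^ Q) ^ (⌈|K|⌉₊ * Nat.log 2 (w + 1)) ≤ (w + 1) ^ (Q * ⌈|K|⌉₊) := by
    calc (2 ^ Q) ^ (⌈|K|⌉₊ * Nat.log 2 (w + 1)) = (2 ^ Nat.log 2 (w + 1)) ^ (Q * ⌈|K|⌉₊) := by
          rw [← pow_mul, ← pow_mul]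
          congr 1
          ring
      _ ≤ _ := Nat.pow_le_pow_left (Nat.pow_log_le_self 2 (by omega)) _
  refine hcard.trans (hQ2.trans (h3.trans ?_))
  rw [pow_add]
  exact Nat.mul_le_mul_left _ h4

end Pool.Agent.K6.helper20.CZ
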