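import Pool.Agent.K6.helper20.CZ.Lift
import Pool.Agent.K6.helper20.CZ.Grow
import Pool.Agent.K6.helper20.CZ.Expand

set_option autoImplicit false

/-!
# Pinching through the centralizer: topological form, and its transfer to iterates
-/

open Filter Topology Set Metric

namespace Pool.Agent.K6.helper20.CZ

open Pool.Agent.N234.CP Pool.Agent.H721R2 Pool.Agent.H789R2.AN Pool.Agent.H789R2.GP

/-- The homeomorphism `φ` commutes with `f`; the `φ`-images of stably `𝒰₀`-close points are joined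
by `N` stable `𝒰`-steps with `R N ≤ exp (s n)`, and the `fⁿ φ`-images of unstably `𝒰₀`-close points
are joined by `N` unstable `𝒰`-steps with `R N ≤ exp (u n)`. -/
structure CentralPin {M : Type*} [TopologicalSpace M] (f : M ≃ₜ M) (𝒰₀ 𝒰 : Set (M × M))
    (s u R : ℝ) (n : ℕ) (φ : M ≃ₜ M) : Prop where
  comm : ∀ x, φ (f x) = f (φ x)
  stable : ∀ x y, StableClose f 𝒰₀ x y → ∃ N : ℕ, R * N ≤ Real.exp (s * n) ∧
    StableChain f 𝒰 N (φ x) (φ y)
  unstable : ∀ x y, StableClose f.symm 𝒰₀ x y → ∃ N : ℕ, R * N ≤ Real.exp (u * n) ∧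
    StableChain f.symm 𝒰 N (f^[n] (φ x)) (f^[n] (φ y))

/-- **Pinching through the centralizer.** -/
def CentralPinching {M : Type*} [TopologicalSpace M] (f : M ≃ₜ M) (s u : ℝ) : Prop :=
  ∃ 𝒰₀ ∈ 𝓝ˢ (diagonal M), ∀ 𝒰 ∈ 𝓝ˢ (diagonal M), ∀ R : ℝ, ∃ (n : ℕ) (φ : M ≃ₜ M),
    R ≤ n ∧ CentralPin f 𝒰₀ 𝒰 s u R n φ

/-- Pinching through the centralizer with times logarithmic in the ratio `R`. -/
def LogCentralPinching {M : Type*} [TopologicalSpace M] (f : M ≃ₜ M) (s u : ℝ) : Prop :=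
  ∃ 𝒰₀ ∈ 𝓝ˢ (diagonal M), ∀ 𝒰 ∈ 𝓝ˢ (diagonal M), ∃ K : ℝ, ∀ R : ℝ, 1 ≤ R →
    ∃ (n : ℕ) (φ : M ≃ₜ M), Real.log R ≤ n ∧ (n : ℝ) ≤ K * (1 + Real.log R) ∧
      CentralPin f 𝒰₀ 𝒰 s u R n φ

theorem CentralPin.mono_ratio {M : Type*} [TopologicalSpace M] {f : M ≃ₜ M} {𝒰₀ 𝒰 : Set (M × M)}
    {s u R R' : ℝ} {n : ℕ} {φ : M ≃ₜ M} (h : CentralPin f 𝒰₀ 𝒰 s u R' n φ) (hR : R ≤ R') :
    CentralPin f 𝒰₀ 𝒰 s u R n φ where
  comm := h.comm
  stable := fun x y hxy => by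
    obtain ⟨N, hN, hc⟩ := h.stable x y hxy
    exact ⟨N, (mul_le_mul_of_nonneg_right hR (Nat.cast_nonneg _)).trans hN, hc⟩
  unstable := fun x y hxy => by
    obtain ⟨N, hN, hc⟩ := h.unstable x y hxy
    exact ⟨N, (mul_le_mul_of_nonneg_right hR (Nat.cast_nonneg _)).trans hN, hc⟩

theorem LogCentralPinching.central {M : Type*} [TopologicalSpace M] {f : M ≃ₜ M} {s u : ℝ}
    (h : LogCentralPinching f s u) : CentralPinching f s u := by
  obtain ⟨𝒰₀, h𝒰₀, h1⟩ := h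
  refine ⟨𝒰₀, h𝒰₀, fun 𝒰 h𝒰 R => ?_⟩
  obtain ⟨K, h2⟩ := h1 𝒰 h𝒰
  have e1 : |R| + 1 ≤ Real.exp |R| := Real.add_one_le_exp _
  have e2 := abs_nonneg R
  have e3 := le_abs_self R
  obtain ⟨n, φ, a1, -, a2⟩ := h2 (Real.exp |R|) (by linarith)
  rw [Real.log_exp] at a1
  exact ⟨n, φ, e3.trans a1, a2.mono_ratio (by linarith)⟩

section

variable {X : Type*} [MetricSpace X] [CompactSpace X]

/-- transfer to an iterate -/
theorem pin_of_central {f φ : X ≃ₜ X} {m : ℕ} (hm : 1 ≤ m) {𝒰₀ : Set (X × X)} {δ : ℝ}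
    (hS : ∀ x y, SR (iterHomeo f m) δ x y → StableClose f 𝒰₀ x y)
    (hU : ∀ x y, SR (iterHomeo f m).symm δ x y → StableClose f.symm 𝒰₀ x y)
    {s u R R' : ℝ} {n : ℕ} (hs : 0 < s) (hu : 0 < u) (h1 : |R| * Real.exp (s * m) ≤ R')
    (h2 : |R| * Real.exp (u * m) ≤ R') (h : CentralPin f 𝒰₀ {q | dist q.1 q.2 < δ} s u R' n φ) :
    Pin (iterHomeo f m) δ (s * m) (u * m) R (n / m) (shift f φ (n % m)) := by
  have hn : n = n % m + m * (n / m) := (Nat.mod_add_div n m).symm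
  have hr : n % m < m := Nat.mod_lt _ (by omega)
  have key : ∀ (t : ℝ) (N : ℕ), 0 < t → |R| * Real.exp (t * m) ≤ R' →
      R' * N ≤ Real.exp (t * n) → R * N ≤ Real.exp (t * m * ((n / m : ℕ) : ℝ)) := by
    intro t N ht a1 a2
    have a3 : Real.exp (t * n) ≤ Real.exp (t * m * ((n / m : ℕ) : ℝ)) * Real.exp (t * m) := by
      rw [← Real.exp_add]
      apply Real.exp_le_exp.mpr
      have h5 : (n : ℝ) ≤ m * (n / m : ℕ) + m := by
        have h6 : n ≤ m * (n / m) + m := by omega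
        exact_mod_cast h6
      nlinarith
    have a4 : |R| * N * Real.exp (t * m) ≤
        Real.exp (t * m * ((n / m : ℕ) : ℝ)) * Real.exp (t * m) := by
      calc |R| * N * Real.exp (t * m) = |R| * Real.exp (t * m) * N := by ring
        _ ≤ R' * N := mul_le_mul_of_nonneg_right a1 (Nat.cast_nonneg _)
        _ ≤ _ := a2.trans a3
    have a5 := le_of_mul_le_mul_right a4 (Real.exp_pos _)
    exact (mul_le_mul_of_nonneg_right (le_abs_self R) (Nat.cast_nonneg _)).trans a5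
  refine ⟨fun x => ?_, fun x y hxy => ?_, fun x y hxy => ?_⟩
  · rw [shift_apply, shift_apply]
    show f^[n % m] (φ (f^[m] x)) = f^[m] (f^[n % m] (φ x))
    rw [comm_iter h.comm, ← Function.iterate_add_apply, ← Function.iterate_add_apply,
      Nat.add_comm]
  · obtain ⟨N, hN, z, z0, z1, hz⟩ := h.stable x y (hS x y hxy)
    refine ⟨N, key s N hs h1 hN, fun i => f^[n % m] (z i), ?_, ?_, fun i hi => ?_⟩
    · show f^[n % m] (z 0) = _
      rw [z0, shift_apply]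
    · show f^[n % m] (z N) = _
      rw [z1, shift_apply]
    · refine SR_of_close f m (𝒰 := {q | dist q.1 q.2 < δ}) (fun p hp => le_of_lt hp) fun k => ?_
      have h3 := hz i hi (k + n % m)
      rwa [Function.iterate_add_apply, Function.iterate_add_apply] at h3
  · obtain ⟨N, hN, z, z0, z1, hz⟩ := h.unstable x y (hU x y hxy)
    have e : ∀ w : X, (iterHomeo f m)^[n / m] (shift f φ (n % m) w) = f^[n] (φ w) := fun w => by
      rw [iterHomeo_iter, shift_apply, ← Function.iterate_add_apply]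
      congr 1
      omega
    refine ⟨N, key u N hu h2 hN, z, ?_, ?_, fun i hi => ?_⟩
    · rw [z0, e]
    · rw [z1, e]
    · exact SR_of_close f.symm m (𝒰 := {q | dist q.1 q.2 < δ}) (fun p hp => le_of_lt hp) (hz i hi)

/-- the condition for the lifting theorem -/
theorem CentralPinching.pin {f : X ≃ₜ X} {s u : ℝ} (h : CentralPinching f s u) (hs : 0 < s)
    (hu : 0 < u) {m : ℕ} (hm : 1 ≤ m) : ∃ δ₀ > 0, ∀ δ : ℝ, 0 < δ → δ ≤ δ₀ →
      ∀ R : ℝ, ∃ (n : ℕ) (φ : X ≃ₜ X), R ≤ n ∧ Pin (iterHomeo f m) δ (s * m) (u * m) R n φ := by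
  obtain ⟨𝒰₀, h𝒰₀, h1⟩ := h
  obtain ⟨δ₁, hδ₁, h2⟩ := close_of_SR f hm h𝒰₀
  obtain ⟨δ₂, hδ₂, h3⟩ := close_of_SR f.symm hm h𝒰₀
  refine ⟨min δ₁ δ₂, lt_min hδ₁ hδ₂, fun δ hδ hle R => ?_⟩
  set R' := max (m * (|R| + 1)) (max (|R| * Real.exp (s * m)) (|R| * Real.exp (u * m))) with hR'
  obtain ⟨n, φ, a1, a2⟩ := h1 {q | dist q.1 q.2 < δ} (diag_mem.2 ⟨δ, hδ, fun x y h => h⟩) R'
  refine ⟨n / m, shift f φ (n % m), ?_, pin_of_central hm
    (fun x y hxy => h2 x y (hxy.mono (hle.trans (min_le_left _ _))))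
    (fun x y hxy => h3 x y (hxy.mono (hle.trans (min_le_right _ _)))) hs hu
    ((le_max_left _ _).trans (le_max_right _ _)) ((le_max_right _ _).trans (le_max_right _ _)) a2⟩
  have hm0 : (0 : ℝ) < m := by exact_mod_cast hm
  have b1 : (m : ℝ) * (|R| + 1) ≤ n := (le_max_left _ _).trans a1
  have b2 : (n : ℝ) ≤ m * ((n / m : ℕ) : ℝ) + m := by
    have h6 : n ≤ m * (n / m) + m := by
      have := Nat.mod_add_div n m
      have hr : n % m < m := Nat.mod_lt _ (by omega)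
      omega
    exact_mod_cast h6
  have b3 : (m : ℝ) * (|R| + 1) ≤ m * (((n / m : ℕ) : ℝ) + 1) := by linarith
  have b4 := le_of_mul_le_mul_left b3 hm0
  linarith [le_abs_self R]

/-- the condition for the growth theorem -/
theorem LogCentralPinching.pin {f : X ≃ₜ X} {s u : ℝ} (h : LogCentralPinching f s u) (hs : 0 < s)
    (hu : 0 < u) {m : ℕ} (hm : 1 ≤ m) : ∃ δ₀ > 0, ∀ δ : ℝ, 0 < δ → δ ≤ δ₀ →
      LogPin (iterHomeo f m) δ (s * m) (u * m) := by
  obtain ⟨𝒰₀, h𝒰₀, h1⟩ := h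
  obtain ⟨δ₁, hδ₁, h2⟩ := close_of_SR f hm h𝒰₀
  obtain ⟨δ₂, hδ₂, h3⟩ := close_of_SR f.symm hm h𝒰₀
  refine ⟨min δ₁ δ₂, lt_min hδ₁ hδ₂, fun δ hδ hle => ?_⟩
  obtain ⟨K, h4⟩ := h1 {q | dist q.1 q.2 < δ} (diag_mem.2 ⟨δ, hδ, fun x y h => h⟩)
  have hm0 : (1 : ℝ) ≤ m := by exact_mod_cast hm
  refine ⟨|K| * (1 + m * (1 + s + u)), fun R hR => ?_⟩
  have hR0 : 0 < R := by linarith
  have hL : 0 ≤ Real.log R := Real.log_nonneg hR
  set R' := Real.exp (m * (Real.log R + (1 + s + u))) with hR'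
  have c0 : 0 ≤ m * (Real.log R + (1 + s + u)) := by positivity
  obtain ⟨n, φ, a1, a2, a3⟩ := h4 R' (Real.one_le_exp c0)
  rw [hR', Real.log_exp] at a1 a2
  have c1 : ∀ t : ℝ, 0 < t → t ≤ s + u → |R| * Real.exp (t * m) ≤ R' := by
    intro t ht ht'
    rw [abs_of_pos hR0, hR']
    calc R * Real.exp (t * m) = Real.exp (Real.log R + t * m) := by
          rw [Real.exp_add, Real.exp_log hR0]
      _ ≤ _ := Real.exp_le_exp.mpr (by nlinarith)
  refine ⟨n / m, shift f φ (n % m), ?_, ?_, pin_of_central hm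
    (fun x y hxy => h2 x y (hxy.mono (hle.trans (min_le_left _ _))))
    (fun x y hxy => h3 x y (hxy.mono (hle.trans (min_le_right _ _)))) hs hu
    (c1 s hs (by linarith)) (c1 u hu (by linarith)) a3⟩
  · have b2 : (n : ℝ) ≤ m * ((n / m : ℕ) : ℝ) + m := by
      have h6 : n ≤ m * (n / m) + m := by
        have := Nat.mod_add_div n m
        have hr : n % m < m := Nat.mod_lt _ (by omega)
        omega
      exact_mod_cast h6
    have b3 : (m : ℝ) * (Real.log R + 1) ≤ m * (((n / m : ℕ) : ℝ) + 1) := by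
      have : (m : ℝ) * (Real.log R + 1) ≤ m * (Real.log R + (1 + s + u)) :=
        mul_le_mul_of_nonneg_left (by linarith) (by linarith)
      linarith
    have b4 := le_of_mul_le_mul_left b3 (by linarith)
    linarith
  · have b1 : ((n / m : ℕ) : ℝ) ≤ n := by exact_mod_cast Nat.div_le_self n m
    have b2 : K * (1 + m * (Real.log R + (1 + s + u))) ≤
        |K| * (1 + m * (Real.log R + (1 + s + u))) :=
      mul_le_mul_of_nonneg_right (le_abs_self K) (by positivity)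
    have b3 : 1 + m * (Real.log R + (1 + s + u)) ≤
        (1 + m * (1 + s + u)) * (1 + Real.log R) := by
      have : 0 ≤ m * (s + u) * Real.log R := by positivity
      nlinarith
    calc ((n / m : ℕ) : ℝ) ≤ n := b1
      _ ≤ K * (1 + m * (Real.log R + (1 + s + u))) := a2
      _ ≤ |K| * (1 + m * (Real.log R + (1 + s + u))) := b2
      _ ≤ |K| * ((1 + m * (1 + s + u)) * (1 + Real.log R)) :=
          mul_le_mul_of_nonneg_left b3 (abs_nonneg K)
      _ = _ := by ring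

end

/-- iterates of the product of `f^q` and `h` -/
theorem factor_iter {M : Type*} {f h : M → M} {q : ℕ} (hc : ∀ x, h (f x) = f (h x)) (j : ℕ)
    (x : M) : f^[q * j] (h^[j] x) = (fun x => f^[q] (h x))^[j] x := by
  induction j with
  | zero => rfl
  | succ j ih =>
    rw [Function.iterate_succ_apply' (fun x => f^[q] (h x)), ← ih]
    show f^[q * (j + 1)] (h^[j + 1] x) = f^[q] (h (f^[q * j] (h^[j] x)))
    have h2 : h (f^[q * j] (h^[j] x)) = f^[q * j] (h (h^[j] x)) := by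
      have := comm_it2 hc 1 (q * j) (h^[j] x)
      simpa using this
    rw [h2, ← Function.iterate_add_apply, Function.iterate_succ_apply']
    congr 1
    ring

/-- **Pinching by a commuting homeomorphism.** -/
theorem log_of_factors {M : Type*} [TopologicalSpace M] {f h : M ≃ₜ M} {q : ℕ} (hq : 1 ≤ q)
    (hc : ∀ x, h (f x) = f (h x)) {s u σ υ : ℝ} (hσ : σ < q * s) (hυ : υ < q * u)
    (h1 : ExpandsAlong f h σ) (h2 : ExpandsAlong f.symm (fun x => f^[q] (h x)) υ) :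
    LogCentralPinching f s u := by
  obtain ⟨𝒰₁, h𝒰₁, h1⟩ := h1
  obtain ⟨𝒰₂, h𝒰₂, h2⟩ := h2
  refine ⟨𝒰₁ ∩ 𝒰₂, inter_mem h𝒰₁ h𝒰₂, fun 𝒰 h𝒰 => ?_⟩
  obtain ⟨C₁, h1⟩ := h1 𝒰 h𝒰
  obtain ⟨C₂, h2⟩ := h2 𝒰 h𝒰
  have hq0 : (1 : ℝ) ≤ q := by exact_mod_cast hq
  obtain ⟨γ, hγ⟩ : ∃ γ : ℝ, γ = min (q * s - σ) (q * u - υ) := ⟨_, rfl⟩
  have hγ0 : 0 < γ := by rw [hγ]; exact lt_min (by linarith) (by linarith)
  have hγ1 : γ ≤ q * s - σ := by rw [hγ]; exact min_le_left _ _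
  have hγ2 : γ ≤ q * u - υ := by rw [hγ]; exact min_le_right _ _
  obtain ⟨A, hA⟩ : ∃ A : ℝ, A = Real.log (max 1 (max C₁ C₂)) := ⟨_, rfl⟩
  have hmax : (1 : ℝ) ≤ max 1 (max C₁ C₂) := le_max_left _ _
  have hA0 : 0 ≤ A := by rw [hA]; exact Real.log_nonneg hmax
  have hAe : Real.exp A = max 1 (max C₁ C₂) := by rw [hA, Real.exp_log (by linarith)]
  have hC₁ : C₁ ≤ Real.exp A := by
    rw [hAe]; exact (le_max_left _ _).trans (le_max_right _ _)
  have hC₂ : C₂ ≤ Real.exp A := by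
    rw [hAe]; exact (le_max_right _ _).trans (le_max_right _ _)
  refine ⟨q * ((1 + 1 / γ) * (1 + A) + 1), fun R hR => ?_⟩
  have hR0 : 0 < R := by linarith
  obtain ⟨L, hL⟩ : ∃ L : ℝ, L = Real.log R := ⟨_, rfl⟩
  have hL0 : 0 ≤ L := by rw [hL]; exact Real.log_nonneg hR
  have hRe : R = Real.exp L := by rw [hL, Real.exp_log hR0]
  obtain ⟨j, hj⟩ : ∃ j : ℕ, j = ⌈(1 + 1 / γ) * (L + A)⌉₊ := ⟨_, rfl⟩
  have hj1 : (1 + 1 / γ) * (L + A) ≤ j := by rw [hj]; exact Nat.le_ceil _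
  have hj2 : (j : ℝ) ≤ (1 + 1 / γ) * (L + A) + 1 := by
    rw [hj]; exact (Nat.ceil_lt_add_one (by positivity)).le
  have hj3 : L + A ≤ γ * j := by
    have e1 : γ * ((1 + 1 / γ) * (L + A)) = γ * (L + A) + (L + A) := by field_simp
    have e2 := mul_le_mul_of_nonneg_left hj1 hγ0.le
    have e3 : 0 ≤ γ * (L + A) := by positivity
    linarith
  have hj4 : L ≤ j := by
    have e1 : 0 ≤ 1 / γ * (L + A) := by positivity
    have e2 : (1 + 1 / γ) * (L + A) = L + A + 1 / γ * (L + A) := by ring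
    linarith
  have hj0 : (0 : ℝ) ≤ j := Nat.cast_nonneg _
  have bound : ∀ (C t τ : ℝ) (N : ℕ), C ≤ Real.exp A → γ ≤ q * t - τ →
      (N : ℝ) ≤ C * Real.exp (τ * j) → R * N ≤ Real.exp (t * ((q * j : ℕ) : ℝ)) := by
    intro C t τ N a1 a2 a3
    have a4 : (N : ℝ) ≤ Real.exp A * Real.exp (τ * j) :=
      a3.trans (mul_le_mul_of_nonneg_right a1 (Real.exp_pos _).le)
    calc R * N ≤ Real.exp L * (Real.exp A * Real.exp (τ * j)) := by
          rw [hRe]
          exact mul_le_mul_of_nonneg_left a4 (Real.exp_pos _).le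
      _ = Real.exp (L + (A + τ * j)) := by rw [Real.exp_add, Real.exp_add]
      _ ≤ _ := by
          apply Real.exp_le_exp.mpr
          push_cast
          have := mul_le_mul_of_nonneg_right a2 hj0
          nlinarith
  refine ⟨q * j, iterHomeo h j, ?_, ?_, fun x => ?_, fun x y hxy => ?_, fun x y hxy => ?_⟩
  · rw [← hL]
    push_cast
    nlinarith
  · rw [← hL]
    push_cast
    rw [mul_assoc]
    apply mul_le_mul_of_nonneg_left _ (by linarith)
    refine hj2.trans ?_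
    have e1 : L + A ≤ (1 + A) * (1 + L) := by nlinarith
    have e2 : (1 + 1 / γ) * (L + A) ≤ (1 + 1 / γ) * ((1 + A) * (1 + L)) :=
      mul_le_mul_of_nonneg_left e1 (by positivity)
    nlinarith
  · exact comm_it (f := f) (h := h) hc j x
  · obtain ⟨N, hN, hch⟩ := h1 x y (fun k => (hxy k).1) j
    exact ⟨N, bound C₁ s σ N hC₁ hγ1 hN, hch⟩
  · obtain ⟨N, hN, hch⟩ := h2 x y (fun k => (hxy k).2) j
    refine ⟨N, bound C₂ u υ N hC₂ hγ2 hN, ?_⟩
    have e : ∀ w : M, f^[q * j] (iterHomeo h j w) = (fun x => f^[q] (h x))^[j] w :=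
      fun w => factor_iter hc j w
    rw [e, e]
    exact hch

end Pool.Agent.K6.helper20.CZ
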