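import Pool.Agent.N234.CP.Top

set_option autoImplicit false

/-!
# Pinching through the centralizer: all unstable paths lift

Variant of `Pool.Agent.N234.CP.lift_all` (coarse pinching).  There the rectangle is moved by an
iterate of `g`; here it is moved by a homeomorphism which commutes with `g`.
-/

open Filter Topology Set Metric unitInterval

namespace Pool.Agent.K6.helper20.CZ

open Pool.Agent.N234.CP Pool.Agent.H721R2 Pool.Agent.H789R2.AN Pool.Agent.H789R2.GP

variable {X : Type*} [MetricSpace X]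

/-- The pinching condition, in the metric of `X`, at the scale `δ`, for the ratio `R`. -/
def Pin (g : X ≃ₜ X) (δ κ υ R : ℝ) (n : ℕ) (φ : X ≃ₜ X) : Prop :=
  (∀ x, φ (g x) = g (φ x)) ∧
  (∀ x y, SR g δ x y → ∃ N : ℕ, R * N ≤ Real.exp (κ * n) ∧ Steps g δ N (φ x) (φ y)) ∧
  ∀ x y, SR g.symm δ x y → ∃ N : ℕ, R * N ≤ Real.exp (υ * n) ∧
    Steps g.symm δ N (g^[n] (φ x)) (g^[n] (φ y))

theorem comm_iter {g φ : X ≃ₜ X} (hc : ∀ x, φ (g x) = g (φ x)) (n : ℕ) (x : X) :
    φ (g^[n] x) = g^[n] (φ x) := by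
  induction n with
  | zero => rfl
  | succ n ih => rw [Function.iterate_succ_apply', Function.iterate_succ_apply', hc, ih]

theorem comm_symm {g φ : X ≃ₜ X} (hc : ∀ x, φ (g x) = g (φ x)) (x : X) :
    φ (g.symm x) = g.symm (φ x) := by
  apply g.injective
  rw [← hc, g.apply_symm_apply, g.apply_symm_apply]

/-- `g^[m] ∘ φ` as a homeomorphism -/
def shift (g φ : X ≃ₜ X) (m : ℕ) : X ≃ₜ X := φ.trans (iterHomeo g m)

theorem shift_apply (g φ : X ≃ₜ X) (m : ℕ) (x : X) : shift g φ m x = g^[m] (φ x) := rfl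

theorem shift_comm {g φ : X ≃ₜ X} (hc : ∀ x, φ (g x) = g (φ x)) (m : ℕ) (x : X) :
    shift g φ m (g x) = g (shift g φ m x) := by
  rw [shift_apply, shift_apply, hc, ← Function.iterate_succ_apply, Function.iterate_succ_apply']

theorem exp_shift {D κ R : ℝ} {N n' T : ℕ} (hR : D * Real.exp (κ * T) ≤ R)
    (h : R * N ≤ Real.exp (κ * ((n' + T : ℕ) : ℝ))) : D * N ≤ Real.exp (κ * n') := by
  have h1 : Real.exp (κ * ((n' + T : ℕ) : ℝ)) = Real.exp (κ * n') * Real.exp (κ * T) := by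
    rw [← Real.exp_add]; congr 1; push_cast; ring
  have h2 : D * N * Real.exp (κ * T) ≤ Real.exp (κ * n') * Real.exp (κ * T) := by
    calc D * N * Real.exp (κ * T) = D * Real.exp (κ * T) * N := by ring
      _ ≤ R * N := mul_le_mul_of_nonneg_right hR (Nat.cast_nonneg _)
      _ ≤ _ := by rw [← h1]; exact h
  exact le_of_mul_le_mul_right h2 (Real.exp_pos _)

/-- **Pinching through the centralizer.**  All unstable paths lift to strips along all stable
displacements. -/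
theorem lift_central [CompactSpace X] {g : X ≃ₜ X} {c : ℝ} (h : LP g c) {δ : ℝ} (hδ : 0 < δ)
    (hδc : δ ≤ c) {κ υ : ℝ} (hκ : 0 < κ) (hυ : 0 < υ) (hS : LoRate g δ κ)
    (hU : LoRate g.symm δ υ)
    (hC : ∀ R : ℝ, ∃ (n : ℕ) (φ : X ≃ₜ X), R ≤ n ∧ Pin g δ κ υ R n φ) :
    ∀ a s, WS g a s → Lf g a s := by
  have hc := h.c_pos
  obtain ⟨br, δb, hb⟩ := exists_BrP h
  -- scales
  set δ₁ := min δ (c / 3) with hδ₁
  have d0 : 0 < δ₁ := lt_min hδ (by linarith)
  have d1 : δ₁ ≤ δ := min_le_left _ _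
  have d2 : 3 * δ₁ ≤ c := by linarith [min_le_right δ (c / 3)]
  obtain ⟨η₁, hη₁, hb2⟩ := hb.b2 δ₁ d0
  set η := min η₁ δb with hη
  have e0 : 0 < η := lt_min hη₁ hb.pos
  obtain ⟨ηg, hηg, hgap⟩ := qs_SR_of_dist h δ₁ d0
  set ρ := min δ₁ (min (η / 4) (ηg / 4)) with hρ
  have r0 : 0 < ρ := by positivity
  have r1 : ρ ≤ δ₁ := min_le_left _ _
  have r2 : ρ ≤ η / 4 := (min_le_right _ _).trans (min_le_left _ _)
  have r3 : ρ ≤ ηg / 4 := (min_le_right _ _).trans (min_le_right _ _)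
  obtain ⟨D₁, hD₁, V1⟩ := hS.fine h hκ hδc r0
  obtain ⟨D₂, hD₂, V2⟩ := hU.fine h.symm hυ hδc r0
  obtain ⟨M₀, hM₀⟩ := qs_exists_pow h.c_pos r0
  intro a s has p hp
  obtain ⟨M, hM⟩ := has.eventually_lt hδ
  have hM1 : SR g δ (g^[M] a) (g^[M] s) := fun k => by
    rw [← Function.iterate_add_apply, ← Function.iterate_add_apply]
    exact (hM _ (by omega)).le
  obtain ⟨M', hM'⟩ := path_small h.symm p hδ
  have hM2 : ∀ t, SR g.symm δ (g.symm^[M'] a) (g.symm^[M'] (p t).val) := fun t => by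
    have := hM' M' le_rfl t
    rwa [hp] at this
  set T := 2 * M₀ + M + M' with hT
  obtain ⟨n, φ, hRn, hcomm, hs1, hu1⟩ :=
    hC (max (T : ℝ) (max (D₁ * Real.exp (κ * T)) (D₂ * Real.exp (υ * T))))
  set R := max (T : ℝ) (max (D₁ * Real.exp (κ * T)) (D₂ * Real.exp (υ * T))) with hR
  have hTn : T ≤ n := by
    have : (T : ℝ) ≤ n := (le_max_left _ _).trans hRn
    exact_mod_cast this
  have hR1 : D₁ * Real.exp (κ * T) ≤ R := (le_max_left _ _).trans (le_max_right _ _)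
  have hR2 : D₂ * Real.exp (υ * T) ≤ R := (le_max_right _ _).trans (le_max_right _ _)
  obtain ⟨n', rfl⟩ : ∃ n', n = n' + T := ⟨n - T, by omega⟩
  set Ψ := shift g φ (M₀ + M) with hΨ
  have hΨc : ∀ x, Ψ (g x) = g (Ψ x) := shift_comm hcomm _
  have hΨa : ∀ x, Ψ x = g^[M₀ + M] (φ x) := fun x => rfl
  -- the stable chain at the bottom
  obtain ⟨L, hL, hLs⟩ := hs1 _ _ hM1
  have hz' := hLs.push h hδc hM₀
  have eS : ∀ x : X, g^[M₀] (φ (g^[M] x)) = Ψ x := fun x => by
    rw [comm_iter hcomm, hΨa, Function.iterate_add_apply]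
  rw [eS, eS] at hz'
  obtain ⟨z, z0, zL, hz⟩ := hz'
  have CS : ∀ i ≤ L, ∀ x y, Steps g δ₁ i x y → SR g ρ (g^[n'] x) (g^[n'] y) := by
    intro i hi x y hst
    refine V1 i n' x y ?_ (hst.mono d1)
    have h1 : (i : ℝ) ≤ L := by exact_mod_cast hi
    exact (mul_le_mul_of_nonneg_left h1 (by linarith)).trans (exp_shift hR1 hL)
  -- the path at the bottom
  let v : C(I, SM g.symm) := (SM.map (comm_symm_right hΨc)).comp p
  have hv : ∀ t, (v t).val = Ψ (p t).val := fun t => rfl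
  have eU : ∀ x : X, g.symm^[M₀] (g^[n' + T] (φ (g.symm^[M'] x))) = g^[n'] (Ψ x) := fun x => by
    have e1 : φ (g.symm^[M'] x) = g.symm^[M'] (φ x) := comm_iter (comm_symm hcomm) M' x
    rw [e1, hΨa]
    have e2 : ∀ w : X, g^[n' + T] w = g^[M₀] (g^[n'] (g^[M₀ + M] (g^[M'] w))) := fun w => by
      rw [← Function.iterate_add_apply, ← Function.iterate_add_apply, ← Function.iterate_add_apply]
      congr 1
      omega
    rw [e2, iterR, iterL]
  have hbot : ∃ x, LO v (z L) x := by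
    refine bottom_lift h hb (δ₁ := δ₁) (ρ := ρ) d2 r0.le r1 ?_ L z v ?_ hz fun t => ?_
    · have := min_le_right η₁ δb
      rw [← hη] at this
      linarith
    · rw [hv, z0, hp]
    · obtain ⟨J, hJ, hJs⟩ := hu1 _ _ (hM2 t)
      have hw' := hJs.push h.symm hδc hM₀
      rw [eU, eU] at hw'
      obtain ⟨w, w0, wJ, hw⟩ := hw'
      have CU : ∀ j ≤ J, ∀ x y, Steps g.symm δ₁ j x y →
          SR g.symm ρ (g.symm^[n'] x) (g.symm^[n'] y) := by
        intro j hj x y hst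
        refine V2 j n' x y ?_ (hst.mono d1)
        have h1 : (j : ℝ) ≤ J := by exact_mod_cast hj
        exact (mul_le_mul_of_nonneg_left h1 (by linarith)).trans (exp_shift hR2 hJ)
      have h0 : w 0 = g^[n'] (z 0) := by rw [w0, z0]
      obtain ⟨q, p0, p1, p2⟩ := ladder h hb d2 r0.le r1 (by linarith : 2 * ρ < η)
        (min_le_right _ _) (fun x y hxy => hb2 x y (hxy.trans_le (min_le_left _ _)))
        (fun x y hxy hd => hgap x y hxy (by linarith)) n' L J CS CU z w hz hw h0 J le_rfl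
      refine ⟨q, ?_, p1, fun i hi => ?_⟩
      · rw [hv]
        rw [wJ] at p0
        exact (g.injective.iterate n') p0
      · have h1 := CU J le_rfl _ _ (p2 i hi)
        rwa [iterL, iterL] at h1
  obtain ⟨x, hx⟩ := hbot
  rw [zL] at hx
  exact LO_of_iter (g := g) (φ := Ψ) hΨc 1 p v s x hv hx

end Pool.Agent.K6.helper20.CZ
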